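import Pool.Agent.Helper61.QE.St4

/-!
# Project QD, PART E: the module EID (the exact identity)
-/

set_option autoImplicit false

open MeasureTheory Set Filter Topology Complex
open scoped ContDiff ComplexConjugate ENNReal

namespace Pool.Agent.Helper84.QE

open Pool.Agent.Helper68.QC Pool.Agent.Helper61.QE

theorem fin_EID {S : Set ℂ} (hSm : MeasurableSet S) {r : ℝ} (hr : r < 1) (hS : ∀ z ∈ S, ‖z‖ ≤ r) :
    ∫⁻ ζ in S, ENNReal.ofReal (Real.pi / (1 - ‖ζ‖ ^ 2) ^ 2) ≠ ⊤ := by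
  have h1 : ∫⁻ ζ in S, ENNReal.ofReal (Real.pi / (1 - ‖ζ‖ ^ 2) ^ 2) ≤
      ∫⁻ ζ in S, ENNReal.ofReal (Real.pi / (1 - r ^ 2) ^ 2) := by
    refine setLIntegral_mono' hSm fun z hz => ENNReal.ofReal_le_ofReal ?_
    have h2 := hS z hz
    have h0 := norm_nonneg z
    have h3 : ‖z‖ ^ 2 ≤ r ^ 2 := pow_le_pow_left₀ h0 h2 2
    have h4 : r ^ 2 < 1 := by nlinarith
    have h5 : 0 < 1 - r ^ 2 := by linarith
    exact div_le_div_of_nonneg_left Real.pi_pos.le (by positivity)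
      (pow_le_pow_left₀ h5.le (by linarith) 2)
  have h2 : volume S < ⊤ :=
    (measure_mono (t := Metric.closedBall (0 : ℂ) r)
      (fun z hz => mem_closedBall_zero_iff.2 (hS z hz))).trans_lt measure_closedBall_lt_top
  refine (h1.trans_lt ?_).ne
  rw [setLIntegral_const]
  exact ENNReal.mul_lt_top ENNReal.ofReal_lt_top h2

theorem circle_EID : volume (Metric.sphere (0 : ℂ) 1) = 0 :=
  Measure.addHaar_sphere volume 0 1

theorem pEID (hNUL : StNUL) (hCVH : StCVH) (hAT : StAT) (hRIE : StRIE) (hCOE : StCOE) : StEID := by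
  intro Γ _ s F h κ k hFu hFD hAb hk hKap
  obtain ⟨⟨hSm, r', hr', hSr⟩, hft⟩ := hRIE Γ s F h κ k hFu hFD hAb hk hKap
  have hk0 : 0 ≤ k := (norm_nonneg _).trans (hKap.bel.le 0)
  obtain ⟨S, hS⟩ : ∃ S, S = nq (syY κ) '' F := ⟨_, rfl⟩
  rw [← hS] at hSm hSr hft ⊢
  have hSD : S ⊆ D := fun z hz => by
    rw [mem_ball_zero_iff]
    exact (hSr z hz).trans_lt hr'
  refine ⟨fin_EID hSm hr' hSr, ?_⟩
  intro t ht
  obtain ⟨hol, hinj, -, hfD, hfS, hcont⟩ := hft t ht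
  obtain ⟨hBel, -⟩ := (hCOE Γ s h κ k hFu.su ⟨hAb.hol, hAb.eqv⟩ hk0 hKap).1 t
  have ht1 : ‖t‖ < 1 := mem_ball_zero_iff.1 ht
  have hk1 : max k ‖t‖ < 1 := max_lt hk ht1
  obtain ⟨f, hf⟩ : ∃ f, f = ft κ h t := ⟨_, rfl⟩
  rw [← hf] at hol hinj hfD hfS hcont ⊢
  obtain ⟨w, hw⟩ : ∃ w, w = nq (muT κ h t) := ⟨_, rfl⟩
  -- the complement of the image
  have hnull : volume (w '' Metric.sphere (0 : ℂ) 1) = 0 := by
    rw [hw]
    exact (hNUL _ hk1 _ hBel _).2 circle_EID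
  have hcompl : (f '' D)ᶜ = w '' Dx ∪ w '' Metric.sphere (0 : ℂ) 1 := by
    rw [hfD, ← hw, ← image_compl_eq w.bijective, ← image_union]
    congr 1
    ext z
    simp only [mem_compl_iff, mem_ball_zero_iff, not_lt, mem_union, mem_ofPred_eq,
      mem_sphere_zero_iff_norm]
    constructor
    · intro h1
      rcases h1.lt_or_eq with h2 | h2
      · exact Or.inl h2
      · exact Or.inr h2.symm
    · rintro (h1 | h1)
      · exact h1.le
      · exact h1.symm.le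
  have hae : ((f '' D)ᶜ : Set ℂ) =ᵐ[volume] (w '' Dx : Set ℂ) := by
    rw [hcompl]
    exact union_ae_eq_left_of_ae_eq_empty (ae_eq_empty.2 hnull)
  -- the inner integral
  obtain ⟨G, hG⟩ : ∃ G : ℂ → ℝ≥0∞,
      G = fun a => ∫⁻ ξ in w '' Dx, ENNReal.ofReal (‖ξ - a‖⁻¹ ^ 4) := ⟨_, rfl⟩
  have hGm : Measurable G := by
    rw [hG]
    have h1 : Measurable (Function.uncurry fun (a ξ : ℂ) => ENNReal.ofReal (‖ξ - a‖⁻¹ ^ 4)) := by
      unfold Function.uncurry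
      fun_prop
    exact h1.lintegral_prod_right
  have hEn : En F (muT κ h t) =
      ∫⁻ ζ in S, G (f ζ) * ENNReal.ofReal (‖deriv f ζ‖ ^ 2) := by
    rw [← hCVH D S f Metric.isOpen_ball hol hSD hSm (hinj.mono hSD) G, hfS, hG]
    unfold En
    rw [← hw]
  have hm : Measurable fun ζ => G (f ζ) * ENNReal.ofReal (‖deriv f ζ‖ ^ 2) :=
    (hGm.comp hcont.measurable).mul
      (ENNReal.measurable_ofReal.comp ((measurable_deriv f).norm.pow_const 2))
  rw [hEn, ← lintegral_add_left hm]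
  refine setLIntegral_congr_fun hSm fun ζ hζ => ?_
  have h1 := hAT f hol hinj ζ (hSD hζ)
  rw [setLIntegral_congr hae, mul_comm (ENNReal.ofReal (‖deriv f ζ‖ ^ 2))] at h1
  rw [hG]
  exact h1

end Pool.Agent.Helper84.QE
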